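import Pool.Agent.Lib.MP_b9166b_al.Bt.St
import Pool.Agent.Lib.MP_b9166b_al.Aq.Main
import Pool.Agent.Lib.MP_b9166b_al.Ks2.Main
import Pool.Agent.Lib.MP_b9166b_al.Pt.Mn

/-!
# MP_b9166b_al: simple groups of alternating type and of `p`-type
-/

set_option autoImplicit false

namespace Pool.Agent.Lib.MP_b9166b_al.Bt

theorem finLin_iff (G : Type) [Group G] :
    FinLin G ↔ Pool.Agent.Lib.MP_b9166b_al.FinLin G := Iff.rfl

theorem AltType.aq {G : Type} [Group G] (h : AltType G) : Aq.AltType G := h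

theorem PCover.pcov {p : ℕ} {G : Type} [Group G] {z : G} {H : Subgroup G} (h : PCover p z H) :
    Pt.PCov p z H := by
  obtain ⟨h1, hz, T, hT, M, hTp, hM, hzM, F, fld, n, σ, hF, hc, hker, hran⟩ := h
  exact ⟨h1, hz, T, hT, M, hTp, ⟨hM, Matrix.SpecialLinearGroup (Fin n) F, inferInstance, σ,
    ⟨F, fld, n, hF, hc, ⟨MulEquiv.refl _⟩⟩, hker, hran⟩, hzM⟩

theorem PCover.cov {G : Type} [Group G] {x z : G} {H : Subgroup G} (h : PCover 2 z H)
    (hx : x ∈ H) (ho : Odd (orderOf x)) : Ks2.Cov (fun L _ => Ks2.IsSL L ∨ Ks2.IsAlt L) x z H := by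
  obtain ⟨h1, hz, T, hT, M, hTp, hM, hzM, F, fld, n, σ, hF, hc, hker, hran⟩ := h
  refine ⟨h1, hx, hz, T, hT, M, ⟨hM, Matrix.SpecialLinearGroup (Fin n) F, inferInstance, σ,
    Or.inl ⟨F, fld, n, hF, ⟨MulEquiv.refl _⟩⟩, hker, hran⟩, Or.inl ?_, hzM⟩
  have : Fact (Nat.Prime 2) := ⟨Nat.prime_two⟩
  obtain ⟨k, hk⟩ := (IsPGroup.iff_card (p := 2) (G := T)).1 hTp
  rw [hk, Subgroup.orderOf_mk]
  exact Nat.Coprime.pow_left k (Nat.coprime_two_left.2 ho)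

theorem PType.finLin {p : ℕ} (hp : p.Prime) {G : Type} [Group G] (hs : IsSimpleGroup G)
    (hG : PType p G) {x : G} (h2 : p = 2 → Odd (orderOf x))
    (hx : Pool.Agent.Lib.MP_b9166b_al.FinLin (Subgroup.centralizer ({x} : Set G))) :
    Pool.Agent.Lib.MP_b9166b_al.FinLin G := by
  classical
  obtain ⟨z, h⟩ := hG
  by_cases hp2 : p = 2
  · subst hp2
    refine Ks2.kss (x := x) (z := z) hs (fun S => ?_) hx
    obtain ⟨H, hH, hc⟩ := h (insert x S)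
    exact ⟨H, fun s hs => hH s (Finset.mem_insert_of_mem hs),
      hc.cov (hH x (Finset.mem_insert_self x S)) (h2 rfl)⟩
  · refine Pt.main hp hp2 hs (z := z) (fun S => ?_) x hx
    obtain ⟨H, hH, hc⟩ := h S
    exact ⟨H, hH, hc.pcov⟩

theorem main (G : Type) [Group G] (hs : IsSimpleGroup G) (x : G)
    (h : (AltType G ∧ ∃ q j : ℕ, q.Prime ∧ x ^ q ^ j = 1) ∨
      ∃ p : ℕ, p.Prime ∧ PType p G ∧ (p = 2 → Odd (orderOf x)))
    (hx : FinLin (Subgroup.centralizer ({x} : Set G))) : FinLin G := by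
  rw [finLin_iff] at hx ⊢
  rcases h with ⟨hG, q, j, hq, hxq⟩ | ⟨p, hp, hG, h2⟩
  · exact (Aq.AltType.finPerm hs hG.aq hq hxq hx).finLin
  · exact hG.finLin hp hs h2 hx

end Pool.Agent.Lib.MP_b9166b_al.Bt
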