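import Mathlib

/-!
# MP_b9166b_al: the definitions of the statement of OddPrimePower
-/

set_option autoImplicit false

namespace Pool.Agent.Lib.MP_b9166b_al.Bt

open Equiv

/-- The image of `1 - f` has finite dimension. -/
def FinMap {K V : Type} [Field K] [AddCommGroup V] [Module K V] (f : V →ₗ[K] V) : Prop :=
  FiniteDimensional K (LinearMap.range (1 - f))

/-- `G` acts faithfully on the `K`-space `V`, in such a way that `V (1 - g)` has finite dimension for
all `g`. -/
def FinRep (K V G : Type) [Field K] [AddCommGroup V] [Module K V] [Group G] : Prop :=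
  ∃ ρ : G →* (V →ₗ[K] V)ˣ, Function.Injective ρ ∧ ∀ h : G, FinMap (ρ h).val

/-- `G` is finitary linear: it acts faithfully on a vector space of infinite dimension in such a way
that `V (1 - g)` has finite dimension for all `g`. -/
def FinLin (G : Type) [Group G] : Prop :=
  ∃ (K : Type) (_ : Field K) (V : Type) (_ : AddCommGroup V) (_ : Module K V),
    ¬ FiniteDimensional K V ∧ FinRep K V G

/-- `G` is of alternating type: every finite set `S` of elements of `G` lies in a finite subgroup `H`
which has a homomorphism `π` onto an alternating group such that `π` maps no element `≠ 1` of `S` to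
`1`. There is no condition on the kernel of `π`. -/
def AltType (G : Type) [Group G] : Prop :=
  ∀ S : Finset G, ∃ (H : Subgroup G) (n : ℕ) (π : H →* Perm (Fin n)),
    Finite H ∧ π.range = alternatingGroup (Fin n) ∧
      ∀ s ∈ S, ∃ hs : s ∈ H, s ≠ 1 → π ⟨s, hs⟩ ≠ 1

/-- `H` is a finite subgroup containing `z`; it has a normal `p`-subgroup `T`, and `H / T` has a
subgroup `M` with `H / T = M C(M)` which does not centralize `z T` and is the quotient of some
`SL_n(F)`, `F` a finite field of characteristic `p`, by a central subgroup. -/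
def PCover (p : ℕ) {G : Type} [Group G] (z : G) (H : Subgroup G) : Prop :=
  Finite H ∧ ∃ (hz : z ∈ H) (T : Subgroup H) (_ : T.Normal) (M : Subgroup (H ⧸ T)),
    IsPGroup p T ∧ M ⊔ Subgroup.centralizer (M : Set (H ⧸ T)) = ⊤ ∧
      ((⟨z, hz⟩ : H) : H ⧸ T) ∉ Subgroup.centralizer (M : Set (H ⧸ T)) ∧
      ∃ (F : Type) (_ : Field F) (n : ℕ) (σ : Matrix.SpecialLinearGroup (Fin n) F →* H ⧸ T),
        Finite F ∧ CharP F p ∧
          σ.ker ≤ Subgroup.center (Matrix.SpecialLinearGroup (Fin n) F) ∧ σ.range = M

/-- `G` is of `p`-type: for some `z` in `G` every finite subset of `G` lies in a subgroup `H` with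
`PCover p z H`. -/
def PType (p : ℕ) (G : Type) [Group G] : Prop :=
  ∃ z : G, ∀ S : Finset G, ∃ H : Subgroup G, (∀ s ∈ S, s ∈ H) ∧ PCover p z H

end Pool.Agent.Lib.MP_b9166b_al.Bt
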